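import Pool.Agent.Helper29.MX.St2

/-! ROW `HERJ` (visibility, hereditary form): the inputs. `VISO` visibility of the least carriers of the members of `LL` at
small levels; `ZOOMH` zooms of the members of `LL` over least carriers, in flag rows; `HERX` visibility of the zoom gives
visibility relative to a least carrier and the cells of a frame over it. -/

set_option autoImplicit false

namespace Pool.Agent.Helper29.HX

open Finset Filter Topology Matrix Pool.Agent.Helper69.RK Pool.Agent.Helper31.EC Pool.Agent.Helper31.EC.Sp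
open Pool.Agent.Helper40.EL Pool.Agent.Helper89.LX Pool.Agent.Helper84.MT
open Pool.Agent.Helper49.MD Pool.Agent.Helper36.AM
open Pool.Agent.Helper7.RD (RW)
open Pool.Agent.Helper29.MX
open Pool.Agent.Helper94.SEL (Par Ctx LL Spd MnC)

noncomputable section

variable {S : Sp} {N : ℕ} {E : ℕ → ℕ} {ι : Type}

/-- exact numbers of all prefixes at the window `c` -/
def NumA (w : Fin N → ℝ) (c : ℝ) (s : MSys S N E ι) (R : Rsl S) : Prop := ∀ (j : ℕ) (hj : j ≤ N),
  volP s R c hj = j - wsm w j * c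

/-- VISIBILITY of the least carrier of the window `c'` relative to the one of the window `c` and the cells of level `b` of
a frame over it (one triple of the clause `Vsx`) -/
def VsA (w : Fin N → ℝ) (s : MSys S N E ι) (R : Rsl S) (c c' b : ℝ) : Prop := ∀ X X', Mc s R w c X → Mc s R w c' X' →
  ∀ f : Frm s.Q (Lab.ofZ X) fun j => w j * c,
    Nul S fun k => h ((Lab.ofZ X k).p.map (fc (X' k)))
      ((Lab.ofZ X k).v ⊔ (fc (Setoid.ker (f.X.cellv b k)) : FL (Lab.ofZ X k).T))

/-- ABSOLUTE VISIBILITY at the window `c`, level `e` -/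
def Vis (w : Fin N → ℝ) (s : MSys S N E ι) (R : Rsl S) (c e : ℝ) : Prop := ∀ X, Mc s R w c X →
  Nul S fun k => h (fc (X k)) (fc (Setoid.ker (s.Q.cellv e k)))

/-- [VISO] (helper95, 71, 26): the least carriers of the members of `LL` are visible at the levels `e ≤ l` above the top
exponent -/
def VISO (M : ℕ) : Prop := ∀ (A : MCl (M + 1)) (C : ℕ → MCl (M + 1)) (v : ℕ), Ctx M A C v →
  ∀ (m g r e0 : ℕ) (P : Par) (W : ℝ) (a : ℕ → ℝ), W ≤ P.La → Spd M a W → MnC (C m) v r e0 P W →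
    ∀ (S : Sp) (s : MSys S (M + 1) (lin g) (Fin r)) (R : Rsl S), LL (C m) v g r e0 P a S s R →
      ∀ c e : ℝ, 0 < c → e ≤ P.l → (∀ i, wof M a i * c < e) → Vis (wof M a) s R c e

/-- [ZOOMH] (helper4): zooms of the members of `LL` over least carriers -/
def ZOOMH (M : ℕ) : Prop := ∀ (A : MCl (M + 1)) (C : ℕ → MCl (M + 1)) (v : ℕ), Ctx M A C v →
  ∀ (m g r e0 : ℕ) (P : Par) (W : ℝ) (a : ℕ → ℝ), W ≤ P.La → Spd M a W →
    ∀ (S : Sp) (s : MSys S (M + 1) (lin g) (Fin r)) (R : Rsl S), LL (C m) v g r e0 P a S s R →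
      ∀ c u : ℝ, 0 < c → 0 < u → (∀ i, wof M a i * c + u ≤ 1) → c + u * P.d ≤ P.l → ∀ X, Mc s R (wof M a) c X →
        ∃ (z : RW s (M + 1)) (V : Rsl S), z.Z.l = Lab.ofZ V ∧ z.Z.c = c ∧ z.Z.u = u ∧ (∀ᶠ k in UF, V k ≤ X k) ∧
          Nul S (fun k => h (fc (V k)) (fc (X k))) ∧ KLb s R c z.Z.l ∧ Flg z (fun j => wof M a j * c) ∧
          LL (C m) v z.κ r e0 P a z.Z.sp z.sys (rover z.Z.l z.Z.u z.Z.hu R)

/-- [HERX] (helper26): let `z` be a zoom in flag rows over a label which is the least carrier `X` of the window `c` up to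
`o(n)` bits, unit `u`; if the least carriers of `z` of the windows up to `b` are visible at the level `e` of `z`, then the
least carrier of the window `c + u * b` is visible relative to `X` and the cells of level `u * e` of every frame over `X`.
Numbers exact, on all events -/
def HERX (N : ℕ) : Prop := (∀ m, m < N → STu m) → ∀ (S : Sp) (g r : ℕ) (s : MSys S N (lin g) (Fin r)) (R : Rsl S)
  (w : Fin N → ℝ) (c u b e : ℝ), Pt s R → (∀ i, 1 ≤ w i) → 0 < c → 0 < u → 0 ≤ b → e ≤ 1 → (∀ i, w i * b < e) →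
    (∀ i, w i * c + u ≤ 1) → (∀ c' : ℝ, 0 ≤ c' → c' ≤ c + u * b → AllE (fun _ t R' => NumA w c' t R') S s R) →
    ∀ (X V : Rsl S), Mc s R w c X → (∀ᶠ k in UF, V k ≤ X k) → Nul S (fun k => h (fc (V k)) (fc (X k))) →
    ∀ z : RW s N, z.Z.l = Lab.ofZ V → z.Z.c = c → z.Z.u = u → KLb s R c z.Z.l → Flg z (fun j => w j * c) →
      Pt z.sys (rover z.Z.l z.Z.u z.Z.hu R) → (∀ b' : ℝ, 0 ≤ b' → b' ≤ b →
        AllE (fun _ t R' => NumA w b' t R') z.Z.sp z.sys (rover z.Z.l z.Z.u z.Z.hu R)) →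
      (∀ b' : ℝ, 0 < b' → b' ≤ b → Vis w z.sys (rover z.Z.l z.Z.u z.Z.hu R) b' e) → VsA w s R c (c + u * b) (u * e)

end

end Pool.Agent.Helper29.HX
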