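import Pool.Agent.Helper29.HX.Her
import Pool.Agent.Helper95.VIS.VisoRow
import Pool.Agent.Helper4.ZH.Fin
import Pool.Agent.Helper49.KL.Limr
import Pool.Agent.Helper63.ZMX.Fin
import Pool.Agent.Helper25.DX.Tgr
import Pool.Agent.Helper84.SEL.Numx
import Pool.Agent.Helper71.VIS.Ttn
import Pool.Agent.Helper26.VSV.Herx

/-! ROWS `LIMX`, `VISO`, `HERJ` without hypotheses. -/

set_option autoImplicit false

namespace Pool.Agent.Helper29.HX

open Pool.Agent.Helper94.SEL Pool.Agent.Helper29.MX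

theorem limx_all (M : ℕ) : LIMX M :=
  Pool.Agent.Helper49.KL.limx (Pool.Agent.Helper71.VIS.trnx (Pool.Agent.Helper84.SEL.numx M))
    (Pool.Agent.Helper25.DX.tgr M) (Pool.Agent.Helper63.ZMX.zoomx_all M) (Pool.Agent.Helper77.TPX.topf M)

theorem viso_all (M : ℕ) : VISO M := Pool.Agent.Helper95.VIS.viso_row (Pool.Agent.Helper77.TPX.topz M) (limx_all M)

/-- `HERJ`, from `HERX` -/
theorem herj_herx {M : ℕ} (hX : HERX (M + 1)) : HERJ M :=
  herj_of (viso_all M) (Pool.Agent.Helper4.ZH.zoomh_all M) hX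

/-- **ROW `HERJ`** -/
theorem herj (M : ℕ) : HERJ M := herj_herx (Pool.Agent.Helper26.VSV.herx (M + 1))

end Pool.Agent.Helper29.HX
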