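import Pool.Agent.Helper29.HX.St
import Pool.Agent.Helper18.MCU.Dvx
import Pool.Agent.Helper5.TRY.Dv
import Pool.Agent.Helper48.ROK.Numj
import Pool.Agent.Helper71.VIS.Trx
import Pool.Agent.Helper84.SEL.Numx
import Pool.Agent.Helper94.SEL.Jnt
import Pool.Agent.Helper29.MX.Yc2

/-! ROW `HERJ` from `VISO`, `ZOOMH`, `HERX`. -/

set_option autoImplicit false

namespace Pool.Agent.Helper29.HX

open Finset Filter Topology Matrix Pool.Agent.Helper69.RK Pool.Agent.Helper31.EC Pool.Agent.Helper31.EC.Sp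
open Pool.Agent.Helper40.EL Pool.Agent.Helper89.LX Pool.Agent.Helper84.MT
open Pool.Agent.Helper49.MD Pool.Agent.Helper36.AM
open Pool.Agent.Helper7.RD (RW)
open Pool.Agent.Helper29.MX
open Pool.Agent.Helper77.TPX (oth)
open Pool.Agent.Helper47.EXT (f0)
open Pool.Agent.Helper94.SEL (Par Ctx LL Spd MnC KE Top Lip NUMX)
open Pool.Agent.Helper18.MCU (mc_uniq clF vsx_at)
open Pool.Agent.Helper5.TRY (mc_trn mul_hLa up_ex zV zV_h2)
open Pool.Agent.Helper52.SL (nul_trn)
open Pool.Agent.Helper52.MW (AllE_im)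

noncomputable section

variable {S T : Sp} {M N : ℕ} {E : ℕ → ℕ} {ι : Type}

/-! ### truncations -/

/-- the clause `Vsx` of the truncation at the level `e`, from the triples of the system below the level `e` -/
theorem vsx_trn_of {s : MSys S N E ι} {R : Rsl S} {w : Fin N → ℝ} {e : ℝ} (h0 : 0 < e) (h1 : e ≤ 1)
    (hw : ∀ j, 1 ≤ w j) (hV : ∀ c c' b : ℝ, 0 ≤ c → c ≤ c' → (∀ i, w i * c' < e) → 0 < b → (∀ i, w i * c + b ≤ e) →
      (∀ i, w i * (c' - c) < b) → VsA w s R c c' b) : Vsx (S := S.chg S.tr e h0) w (s.trn e h0 h1) R := by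
  intro c c' hc hcc hc1 X X' hX hX' f b hb hb1 hcb
  obtain ⟨f', hf1, hf2⟩ := up_ex (s := s) hw hc f hb hb1
  have hc3 : ∀ i, w i * c ≤ 1 := fun i => by linarith [hb1 i]
  have h2 := hV (e * c) (e * c') (e * b) (mul_nonneg h0.le hc) (mul_le_mul_of_nonneg_left hcc h0.le)
    (fun i => by
      rw [mul_hLa]
      exact mul_lt_of_lt_one_right h0 (hc1 i)) (mul_pos h0 hb) (fun i => by
      rw [mul_hLa]
      have := mul_le_mul_of_nonneg_left (hb1 i) h0.le
      linarith) (fun i => by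
      have := mul_lt_mul_of_pos_left (hcb i) h0
      calc w i * (e * c' - e * c) = e * (w i * (c' - c)) := by ring
        _ < e * b := this) X X' ((mc_trn hw hc hc3).mp hX) ((mc_trn hw (hc.trans hcc) fun i => (hc1 i).le).mp hX') f'
  apply nul_trn.mpr
  have h3 : Nul S (fun k => h (fc (F := S.F k) (X' k))
      (fc (F := S.F k) (X k) ⊔ fc (F := S.F k) (Setoid.ker ((zV f.X).cellv (e * b) k)))) := by
    refine Nul.of_le (h2.add hf2) (Eventually.of_forall fun k => h_nonneg _ _) (Eventually.of_forall fun k => ?_)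
    have h6 := h_triangle' (fc (F := S.F k) (X' k))
      (fc (F := S.F k) (X k) ⊔ (fc (Setoid.ker (f'.X.cellv (e * b) k)) : FL (S.F k)))
      (fc (F := S.F k) (X k) ⊔ fc (F := S.F k) (Setoid.ker ((zV f.X).cellv (e * b) k)))
    refine h6.trans (add_le_add le_rfl ?_)
    refine (h_sup_le _ _ _).trans ?_
    rw [h_zero le_sup_left, zero_add]
    exact h_anti le_sup_right
  have e1 := funext fun k => zV_h2 (S := S) (X := X) X' f.X b k
  rw [← e1] at h3
  exact h3

/-! ### LL on events -/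

section ll

variable {A : MCl (M + 1)} {C : ℕ → MCl (M + 1)} {v m g r e0 : ℕ} {P : Par} {a : ℕ → ℝ} {W : ℝ}
  {s : MSys S (M + 1) (lin g) (Fin r)} {R : Rsl S}

/-- `LL` is closed under events of extensions -/
theorem ll_im (hc : Ctx M A C v) (h : LL (C m) v g r e0 P a S s R) (p : Pj T S) (B : ∀ k, (T.F k).Ω → Prop)
    (hB : 0 < ul (T.pr B)) : LL (C m) v g r e0 P a (Sp.im p B) (s.im p B hB) R := by
  have hn : ∀ c : ℝ, 0 ≤ c → c < P.l → ∀ (j : ℕ) (hj : j ≤ M + 1),
      Pool.Agent.Helper94.SEL.num (s.im p B hB) R hj c = a j * c := fun c h0 h1 j hj =>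
    (h.ke.bk.rig T p B hB c h0 h1 j hj).trans (h.num c h0 h1 j hj)
  refine ⟨⟨Pool.Agent.Helper71.VIS.bk_im hc.ok h.ke.bk p B hB, ?_, ?_⟩, hn⟩
  · intro c c' h0 hcc h1
    have h2 := h.ke.lip c c' h0 hcc h1
    have hN := Pool.Agent.Helper84.SEL.numx M
    rw [← hN.last, ← hN.last, h.num c h0 (hcc.trans_lt h1) _ le_rfl, h.num c' (h0.trans hcc) h1 _ le_rfl] at h2
    rw [← hN.last, ← hN.last, hn c h0 (hcc.trans_lt h1) _ le_rfl, hn c' (h0.trans hcc) h1 _ le_rfl]
    exact h2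
  · have h2 : AllE (fun _ t _ => ∀ x y : ℝ, 0 ≤ x → x ≤ y → y ≤ P.d →
        Pool.Agent.Helper31.EC.h ((t.Q.co (Fin.last M)).dg y) ((t.Q.co (Fin.last M)).dg x ⊔ (oth t.Q (Fin.last M)).dg 1) ≤
          (1 - P.ρ) * (y - x) + 0) S s R := fun T' q A' hA' => h.ke.top T' q A' hA'
    exact fun T' q A' hA' => AllE_im h2 p B hB T' q A' hA'

/-- the numbers of a member -/
theorem ll_numA (hs : Spd M a W) (h : LL (C m) v g r e0 P a S s R) {c : ℝ} (h0 : 0 ≤ c) (h1 : c < P.l) :
    NumA (wof M a) c s R := by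
  intro j hj
  have h3 : (j : ℝ) - volP s R c hj = a j * c := h.num c h0 h1 j hj
  rw [Pool.Agent.Helper48.ROK.wsm_wof hs.zero j hj]
  linarith

theorem ll_numE (hc : Ctx M A C v) (hs : Spd M a W) (h : LL (C m) v g r e0 P a S s R) {c : ℝ} (h0 : 0 ≤ c)
    (h1 : c < P.l) : AllE (fun _ t R' => NumA (wof M a) c t R') S s R :=
  fun _ p B hB => ll_numA hs (ll_im hc h p B hB) h0 h1

end ll

/-! ### one triple -/

/-- window `0` -/
theorem vsa_zero [Finite ι] (i₀ : Fin N) {s : MSys S N E ι} {R : Rsl S} {w : Fin N → ℝ} (hP : Pt s R)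
    (hw : ∀ j, 1 ≤ w j) (hT : volKO s R 0 = N - (∑ i, w i) * 0) {c' b : ℝ} (hb : 0 < b) (hb1 : b ≤ 1)
    (h : Vis w s R c' b) : VsA w s R 0 c' b := by
  intro X X' hX hX' f
  have hwe : ∀ j, w j * 0 + b ≤ 1 := fun j => by rw [mul_zero, zero_add]; exact hb1
  have h1 := h X' hX'
  have h2 := vsx_at i₀ hP hw le_rfl hT (mc_zero s R w) hX (f0 s.Q _ fun i => mul_zero _) f hb hwe
    (Y := fun k => fc (X' k)) (Y' := fun k => fc (X' k)) (by
      have e1 : (fun k => Pool.Agent.Helper31.EC.h (fc (X' k) : FL (S.F k)) (fc (X' k))) = fun _ => 0 :=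
        funext fun k => h_self _
      rw [e1]
      exact Nul_zero S) (by
      refine h1.of_le (Eventually.of_forall fun k => h_nonneg _ _) (Eventually.of_forall fun k => ?_)
      exact h_anti le_sup_right)
  exact h2

/-- equal windows -/
theorem vsa_self {s : MSys S N E ι} {R : Rsl S} {w : Fin N → ℝ} {c b : ℝ} : VsA w s R c c b := by
  intro X X' hX hX' f
  refine (mc_uniq hX' hX).of_le (Eventually.of_forall fun k => h_nonneg _ _) (Eventually.of_forall fun k => ?_)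
  have h1 : Pool.Agent.Helper31.EC.h (fc (X' k) : FL (S.F k))
      (fc (X k) ⊔ (fc (Setoid.ker (f.X.cellv b k)) : FL (S.F k))) ≤
      Pool.Agent.Helper31.EC.h (fc (X' k) : FL (S.F k)) (fc (X k)) := h_anti le_sup_left
  exact h1

/-- one triple of a member of `LL` below the level `e`, `e d ≤ l²` -/
theorem vsa_ll (hV : VISO M) (hZ : ZOOMH M) (hX : HERX (M + 1)) {A : MCl (M + 1)} {C : ℕ → MCl (M + 1)}
    {v m g r e0 : ℕ} {P : Par} {a : ℕ → ℝ} {W : ℝ} (hc : Ctx M A C v) (hW : W ≤ P.La) (hs : Spd M a W)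
    (hm : MnC (C m) v r e0 P W) {s : MSys S (M + 1) (lin g) (Fin r)} {R : Rsl S}
    (h : LL (C m) v g r e0 P a S s R) {e : ℝ} (he : 0 < e) (hel : e ≤ P.l) (hed : e * P.d ≤ P.l * P.l) {c c' b : ℝ}
    (h0 : 0 ≤ c) (hcc : c ≤ c') (hce : ∀ i, wof M a i * c' < e) (hb : 0 < b) (hbe : ∀ i, wof M a i * c + b ≤ e)
    (hwb : ∀ i, wof M a i * (c' - c) < b) : VsA (wof M a) s R c c' b := by
  have hw := Pool.Agent.Helper29.MX.wof_ge hs
  have hl0 := P.l0
  have hd0 := P.d_pos
  have hd1 := P.d_lt_one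
  have hld := P.l_le_d
  have hl1 : P.l ≤ 1 := by linarith
  have hPt : Pt s R := h.ke.bk.cl.2.1
  have hc'0 : 0 ≤ c' := h0.trans hcc
  have hc'l : c' < P.l := by
    have h1 := hce 0
    have h2 := mul_le_mul_of_nonneg_right (hw 0) hc'0
    linarith
  rcases hcc.eq_or_lt with h1 | h1
  · rw [← h1]
    exact vsa_self
  rcases h0.eq_or_lt with h2 | h2
  · subst h2
    refine vsa_zero 0 hPt hw ?_ hb ?_ (hV A C v hc m g r e0 P W a hW hs hm S s R h c' b h1 ?_ fun i => ?_)
    · have h3 := ll_numA hs h le_rfl hl0 (M + 1) le_rfl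
      have h4 : volKO s R 0 = volP s R 0 (le_refl (M + 1)) := Pool.Agent.Helper29.MX.volKO_eq s R 0
      rw [h4, h3, Pool.Agent.Helper48.ROK.wsm_wof hs.zero _ le_rfl]
      ring
    · have := hbe 0
      rw [mul_zero, zero_add] at this
      linarith
    · have := hbe 0
      rw [mul_zero, zero_add] at this
      linarith
    · have := hwb i
      rwa [sub_zero] at this
  -- the zoom
  obtain ⟨u, hu⟩ : ∃ u : ℝ, u = b / P.l := ⟨_, rfl⟩
  have hul : u * P.l = b := by rw [hu]; field_simp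
  have hu0 : 0 < u := by rw [hu]; positivity
  have hwu : ∀ i, wof M a i * c + u ≤ 1 := fun i => by
    have h3 := hbe i
    have h4 : 0 ≤ wof M a i * c := mul_nonneg (zero_le_one.trans (hw i)) h2.le
    have h5 : (wof M a i * c + u) * P.l ≤ P.l := by
      have h6 : wof M a i * c * P.l ≤ wof M a i * c := mul_le_of_le_one_right h4 hl1
      nlinarith
    nlinarith
  have hcu : c + u * P.d ≤ P.l := by
    have h3 := hbe 0
    have h4 := mul_le_mul_of_nonneg_right (hw 0) h2.le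
    have h5 : (c + u * P.d) * P.l ≤ P.l * P.l := by
      have h6 : (c + u * P.d) * P.l = c * P.l + b * P.d := by
        calc (c + u * P.d) * P.l = c * P.l + (u * P.l) * P.d := by ring
          _ = _ := by rw [hul]
      have h7 : c * P.l ≤ c * P.d := mul_le_mul_of_nonneg_left hld h2.le
      have h8 : (c + b) * P.d ≤ e * P.d := mul_le_mul_of_nonneg_right (by linarith) hd0.le
      nlinarith
    nlinarith
  intro X X' hX1 hX2 f
  obtain ⟨z, V, hzV, hzc, hzu, hVX, hVn, hK, hF, hz⟩ := hZ A C v hc m g r e0 P W a hW hs S s R h c u h2 hu0 hwu hcu X hX1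
  obtain ⟨b', hb'⟩ : ∃ b' : ℝ, b' = (c' - c) / u := ⟨_, rfl⟩
  have hub : u * b' = c' - c := by rw [hb']; field_simp
  have hb'0 : 0 ≤ b' := by
    rw [hb']
    exact div_nonneg (by linarith) hu0.le
  have hwb' : ∀ i, wof M a i * b' < P.l := fun i => by
    have h3 := hwb i
    rw [← hub, ← hul] at h3
    nlinarith
  have hb'l : b' < P.l := by
    have h3 := hwb' 0
    have h4 := mul_le_mul_of_nonneg_right (hw 0) hb'0
    linarith
  have hcub : c + u * b' = c' := by rw [hub]; ring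
  have key := hX hc.st S g r s R (wof M a) c u b' P.l hPt hw h2 hu0 hb'0 hl1 hwb' hwu
    (fun c'' k0 k1 => ll_numE hc hs h k0 (lt_of_le_of_lt (by rwa [hcub] at k1) hc'l)) X V hX1 hVX hVn z hzV hzc hzu hK
    hF hz.ke.bk.cl.2.1 (fun b'' k0 k1 => ll_numE hc hs hz k0 (lt_of_le_of_lt k1 hb'l))
    (fun b'' k0 k1 => hV A C v hc m z.κ r e0 P W a hW hs hm _ z.sys _ hz b'' P.l k0 le_rfl fun i =>
      lt_of_le_of_lt (mul_le_mul_of_nonneg_left k1 (zero_le_one.trans (hw i))) (hwb' i))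
  rw [hcub, hul] at key
  exact key X X' hX1 hX2 f

/-- **ROW `HERJ`** -/
theorem herj_of (hV : VISO M) (hZ : ZOOMH M) (hX : HERX (M + 1)) : HERJ M := by
  intro A C v hc m g r e0 P W a hW hs hm
  have hl0 := P.l0
  have hd0 := P.d_pos
  have hld := P.l_le_d
  refine ⟨P.l * P.l / P.d, 1, by positivity, one_pos, fun S s R h e he h1 he1 => ?_⟩
  have hed : e * P.d ≤ P.l * P.l := by
    rwa [le_div_iff₀ hd0] at he1
  have hel : e ≤ P.l := by
    have h2 : e * P.l ≤ P.l * P.l := (mul_le_mul_of_nonneg_left hld he.le).trans hed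
    nlinarith
  exact Pool.Agent.Helper71.VIS.AllE_trn he h1
    (P := fun S s R => LL (C m) v g r e0 P a S s R) (fun S s R h => vsx_trn_of he h1 (Pool.Agent.Helper29.MX.wof_ge hs)
      fun c c' b k0 k1 k2 k3 k4 k5 => vsa_ll hV hZ hX hc hW hs hm h he hel hed k0 k1 k2 k3 k4 k5)
    fun T p B hB => ll_im hc h p B hB

end

end Pool.Agent.Helper29.HX
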